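import Mathlib

/-!
# Metric fractals and equi-Hölder equivalence: definitions
-/

set_option autoImplicit false

namespace Pool.Agent.H.MP_601622_gt

universe u v

/-- A self-map of a metric space is contracting if its Lipschitz constant is less than `1`. -/
def IsContracting {X : Type u} [MetricSpace X] (f : X → X) : Prop :=
  ∃ c : NNReal, c < 1 ∧ LipschitzWith c f

/-- `(K, F)` is a metric fractal: `K` is a (nonempty) compact metric space and `F` is a finite
family of contracting self-maps of `K` whose images cover `K`. -/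
structure IsMetricFractal (K : Type u) [MetricSpace K] (F : Set (K → K)) : Prop where
  compact : CompactSpace K
  nonempty : Nonempty K
  finite : F.Finite
  contracting : ∀ f ∈ F, IsContracting f
  cover : ⋃ f ∈ F, Set.range f = Set.univ

/-- `(K, F)` with `K ⊆ X` is a fractal in the metric space `X`: for some finite family `G` of
contracting self-maps of `X`, `K` is nonempty compact with `K = ⋃ g(K)` and `F` consists of the
restrictions to `K` of the members of `G`. -/
def IsFractalIn {X : Type u} [MetricSpace X] (K : Set X) (F : Set (K → K)) : Prop :=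
  ∃ G : Set (X → X), G.Finite ∧ (∀ g ∈ G, IsContracting g) ∧ K.Nonempty ∧ IsCompact K ∧
    K = ⋃ g ∈ G, g '' K ∧ F = {f : K → K | ∃ g ∈ G, ∀ x : K, (f x : X) = g x}

/-- A map of metric spaces is equi-Hölder if `c d(x,y)^α ≤ d(h x, h y) ≤ C d(x,y)^α` for some
constants `c, C, α > 0`. -/
def IsEquiHolder {X : Type u} {Y : Type v} [MetricSpace X] [MetricSpace Y] (h : X → Y) : Prop :=
  ∃ c C α : ℝ, 0 < c ∧ 0 < C ∧ 0 < α ∧
    ∀ x y, c * dist x y ^ α ≤ dist (h x) (h y) ∧ dist (h x) (h y) ≤ C * dist x y ^ α

/-- `(X, F)` and `(Y, F')` are equi-Hölder equivalent: some equi-Hölder homeomorphism `h`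
satisfies `F' = {h ∘ f ∘ h⁻¹ : f ∈ F}`. -/
def EquiHolderEquivalent {X : Type u} {Y : Type v} [MetricSpace X] [MetricSpace Y]
    (F : Set (X → X)) (F' : Set (Y → Y)) : Prop :=
  ∃ h : X ≃ₜ Y, IsEquiHolder h ∧ F' = {g | ∃ f ∈ F, g = h ∘ f ∘ h.symm}

end Pool.Agent.H.MP_601622_gt
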