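import Mathlib

/-!
# A metric fractal containing scaled copies of a given sequence of finite metric spaces
-/

set_option autoImplicit false

namespace Pool.Agent.H.MP_601622_gt

open Set Filter Topology

/-- A sequence of metrics on `ℕ`, uniformly discrete and bounded (level by level). -/
structure LevelData where
  /-- the metric of level `n` -/
  d : ℕ → ℕ → ℕ → ℝ
  /-- a bound for the metric of level `n` -/
  B : ℕ → ℝ
  d_self : ∀ n i, d n i i = 0
  d_symm : ∀ n i j, d n i j = d n j i
  d_tri : ∀ n i j k, d n i k ≤ d n i j + d n j k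
  one_le : ∀ n i j, i ≠ j → 1 ≤ d n i j
  le_B : ∀ n i j, d n i j ≤ B n

namespace LevelData

variable (L : LevelData)

theorem one_le_B (n : ℕ) : 1 ≤ L.B n :=
  (L.one_le n 0 1 (by norm_num)).trans (L.le_B n 0 1)

theorem d_nonneg (n i j : ℕ) : 0 ≤ L.d n i j := by
  by_cases h : i = j
  · subst h; rw [L.d_self]
  · exact zero_le_one.trans (L.one_le n i j h)

/-- The scale of level `n`. -/
noncomputable def s : ℕ → ℝ
  | 0 => 1
  | n + 1 => s n / (2 * L.B (n + 1))

/-- The radius of level `n`. -/
noncomputable def R (n : ℕ) : ℝ := L.s n * L.B n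

theorem s_pos (n : ℕ) : 0 < L.s n := by
  induction n with
  | zero => simp [s]
  | succ n ih =>
    have := L.one_le_B (n + 1)
    simp only [s]; positivity

theorem R_pos (n : ℕ) : 0 < L.R n :=
  mul_pos (L.s_pos n) (zero_lt_one.trans_le (L.one_le_B n))

theorem s_le_R (n : ℕ) : L.s n ≤ L.R n := by
  have := L.one_le_B n
  have := L.s_pos n
  unfold R; nlinarith

theorem R_succ (n : ℕ) : L.R (n + 1) = L.s n / 2 := by
  have h := L.one_le_B (n + 1)
  have h0 : L.B (n + 1) ≠ 0 := by linarith
  simp only [R, s]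
  field_simp

theorem R_succ_le (n : ℕ) : L.R (n + 1) ≤ L.R n / 2 := by
  rw [R_succ]
  have := L.s_le_R n
  linarith

theorem R_le (n : ℕ) : L.R n ≤ L.R 0 * (1 / 2) ^ n := by
  induction n with
  | zero => simp
  | succ n ih =>
    have := L.R_succ_le n
    rw [pow_succ]
    nlinarith

/-- The underlying set of the fractal: the levels `{(n, i) : i ≤ n}` and one limit point. -/
def K (_L : LevelData) : Type := Option {p : ℕ × ℕ // p.2 ≤ p.1}

/-- The distance. -/
noncomputable def dd : L.K → L.K → ℝ
  | none, none => 0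
  | none, some q => L.R q.1.1
  | some p, none => L.R p.1.1
  | some p, some q =>
    if p.1.1 = q.1.1 then L.s p.1.1 * L.d p.1.1 p.1.2 q.1.2 else max (L.R p.1.1) (L.R q.1.1)

theorem dd_same_le (n i j : ℕ) : L.s n * L.d n i j ≤ L.R n :=
  mul_le_mul_of_nonneg_left (L.le_B n i j) (L.s_pos n).le

theorem dd_self (x : L.K) : L.dd x x = 0 := by
  rcases x with _ | p
  · rfl
  · simp [dd, L.d_self]

theorem dd_comm (x y : L.K) : L.dd x y = L.dd y x := by
  rcases x with _ | p <;> rcases y with _ | q
  · rfl
  · rfl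
  · rfl
  · simp only [dd]
    by_cases h : p.1.1 = q.1.1
    · rw [if_pos h, if_pos h.symm, h, L.d_symm]
    · rw [if_neg h, if_neg (Ne.symm h), max_comm]

theorem dd_nonneg (x y : L.K) : 0 ≤ L.dd x y := by
  rcases x with _ | p <;> rcases y with _ | q
  · exact le_rfl
  · exact (L.R_pos _).le
  · exact (L.R_pos _).le
  · simp only [dd]
    split_ifs
    · exact mul_nonneg (L.s_pos _).le (L.d_nonneg _ _ _)
    · exact (L.R_pos _).le.trans (le_max_left _ _)

theorem dd_triangle (x y z : L.K) : L.dd x z ≤ L.dd x y + L.dd y z := by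
  rcases x with _ | p <;> rcases y with _ | q <;> rcases z with _ | r
  · simp [dd]
  · simp [dd]
  · simp only [dd]
    have := L.R_pos q.1.1
    linarith
  · simp only [dd]
    have h1 := L.R_pos q.1.1
    split_ifs with h
    · rw [h]
      have := mul_nonneg (L.s_pos r.1.1).le (L.d_nonneg r.1.1 q.1.2 r.1.2)
      linarith
    · have := le_max_right (L.R q.1.1) (L.R r.1.1)
      linarith
  · simp [dd]
  · simp only [dd]
    have h1 := L.R_pos p.1.1
    have h2 := L.R_pos r.1.1
    split_ifs with h
    · have := L.dd_same_le p.1.1 p.1.2 r.1.2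
      linarith
    · exact max_le (by linarith) (by linarith)
  · simp only [dd]
    have h1 := L.R_pos q.1.1
    split_ifs with h
    · rw [h]
      have := mul_nonneg (L.s_pos q.1.1).le (L.d_nonneg q.1.1 p.1.2 q.1.2)
      linarith
    · have := le_max_left (L.R p.1.1) (L.R q.1.1)
      linarith
  · simp only [dd]
    by_cases hpq : p.1.1 = q.1.1
    · by_cases hqr : q.1.1 = r.1.1
      · have hpr : p.1.1 = r.1.1 := hpq.trans hqr
        rw [if_pos hpq, if_pos hqr, if_pos hpr, ← hpq, ← mul_add]
        exact mul_le_mul_of_nonneg_left (L.d_tri _ _ _ _) (L.s_pos _).le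
      · have hpr : ¬ p.1.1 = r.1.1 := fun h => hqr (hpq.symm.trans h)
        rw [if_pos hpq, if_neg hqr, if_neg hpr, ← hpq]
        have := mul_nonneg (L.s_pos p.1.1).le (L.d_nonneg p.1.1 p.1.2 q.1.2)
        linarith
    · by_cases hqr : q.1.1 = r.1.1
      · have hpr : ¬ p.1.1 = r.1.1 := fun h => hpq (h.trans hqr.symm)
        rw [if_neg hpq, if_pos hqr, if_neg hpr, hqr]
        have := mul_nonneg (L.s_pos r.1.1).le (L.d_nonneg r.1.1 q.1.2 r.1.2)
        linarith
      · rw [if_neg hpq, if_neg hqr]
        have h1 := le_max_left (L.R p.1.1) (L.R q.1.1)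
        have h2 := le_max_right (L.R q.1.1) (L.R r.1.1)
        have h3 := L.R_pos p.1.1
        have h4 := L.R_pos r.1.1
        split_ifs with hpr
        · have := L.dd_same_le p.1.1 p.1.2 r.1.2
          linarith
        · exact max_le (by linarith) (by linarith)

theorem eq_of_dd_eq_zero {x y : L.K} (h : L.dd x y = 0) : x = y := by
  rcases x with _ | p <;> rcases y with _ | q
  · rfl
  · exact absurd h (L.R_pos _).ne'
  · exact absurd h (L.R_pos _).ne'
  · simp only [dd] at h
    split_ifs at h with hpq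
    · have h1 : L.d p.1.1 p.1.2 q.1.2 = 0 := by
        rcases mul_eq_zero.1 h with h | h
        · exact absurd h (L.s_pos _).ne'
        · exact h
      have h2 : p.1.2 = q.1.2 := by
        by_contra hne
        have := L.one_le p.1.1 _ _ hne
        linarith
      have : p = q := Subtype.ext (Prod.ext hpq h2)
      rw [this]
    · have := (L.R_pos p.1.1).trans_le (le_max_left (L.R p.1.1) (L.R q.1.1))
      linarith

noncomputable instance : MetricSpace L.K where
  dist := L.dd
  dist_self := L.dd_self
  dist_comm := L.dd_comm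
  dist_triangle := L.dd_triangle
  eq_of_dist_eq_zero := L.eq_of_dd_eq_zero

theorem dist_def (x y : L.K) : dist x y = L.dd x y := rfl

/-- The point `(n, i)` of level `n`. -/
def pt (n i : ℕ) (h : i ≤ n) : L.K := some ⟨(n, i), h⟩

/-- The limit point. -/
def inf : L.K := none

theorem dist_pt (n i j : ℕ) (hi : i ≤ n) (hj : j ≤ n) :
    dist (L.pt n i hi) (L.pt n j hj) = L.s n * L.d n i j := by
  rw [dist_def]; simp [dd, pt]

/-- The inclusion of the isolated points. -/
def emb (p : {p : ℕ × ℕ // p.2 ≤ p.1}) : L.K := some p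

instance : CompactSpace L.K := by
  constructor
  have h : Tendsto L.emb cofinite (𝓝 L.inf) := by
    rw [Metric.tendsto_nhds]
    intro ε hε
    have hlim : Tendsto (fun n : ℕ => L.R 0 * (1 / 2 : ℝ) ^ n) atTop (𝓝 (L.R 0 * 0)) :=
      (tendsto_pow_atTop_nhds_zero_of_lt_one (by norm_num) (by norm_num)).const_mul _
    rw [mul_zero] at hlim
    obtain ⟨N, hN⟩ := eventually_atTop.1 (hlim.eventually (gt_mem_nhds hε))
    rw [eventually_cofinite]
    have hfin : {p : {p : ℕ × ℕ // p.2 ≤ p.1} | p.1.1 < N}.Finite := by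
      refine Set.Finite.of_finite_image (f := Subtype.val) ?_ Subtype.val_injective.injOn
      refine ((Set.finite_Iio N).prod (Set.finite_Iio N)).subset ?_
      rintro _ ⟨p, hp, rfl⟩
      exact ⟨hp, lt_of_le_of_lt p.2 hp⟩
    refine hfin.subset ?_
    intro p hp
    by_contra hlt
    simp only [mem_ofPred_eq, not_lt] at hlt
    apply hp
    have h1 : dist (L.emb p) L.inf = L.R p.1.1 := rfl
    rw [h1]
    exact (L.R_le _).trans_lt (hN _ hlt)
  have h2 := h.isCompact_insert_range_of_cofinite
  have h3 : insert L.inf (Set.range L.emb) = Set.univ := by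
    ext x
    rcases x with _ | p
    · exact ⟨fun _ => mem_univ _, fun _ => Or.inl rfl⟩
    · exact ⟨fun _ => mem_univ _, fun _ => Or.inr ⟨p, rfl⟩⟩
  rw [h3] at h2
  exact h2

/-- First map: `(n, i) ↦ (n + 1, i)`. -/
def f1 : L.K → L.K
  | none => none
  | some p => some ⟨(p.1.1 + 1, p.1.2), p.2.trans (Nat.le_succ _)⟩

/-- Second map: `(n, i) ↦ (n + 1, n + 1)`. -/
def f2 : L.K → L.K
  | none => none
  | some p => some ⟨(p.1.1 + 1, p.1.1 + 1), le_rfl⟩

/-- Third map: the constant map with value `(0, 0)`. -/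
def f3 : L.K → L.K := fun _ => some ⟨(0, 0), le_rfl⟩

theorem max_R_le (m n : ℕ) : max (L.R (m + 1)) (L.R (n + 1)) ≤ 1 / 2 * max (L.R m) (L.R n) := by
  have h1 := L.R_succ_le m
  have h2 := L.R_succ_le n
  have h3 := le_max_left (L.R m) (L.R n)
  have h4 := le_max_right (L.R m) (L.R n)
  exact max_le (by linarith) (by linarith)

theorem lip_f1 : LipschitzWith (1 / 2) L.f1 := by
  apply LipschitzWith.of_dist_le_mul
  intro x y
  rw [dist_def, dist_def]
  have hc : ((1 / 2 : NNReal) : ℝ) = 1 / 2 := by simp
  rw [hc]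
  rcases x with _ | p <;> rcases y with _ | q
  · simp [f1, dd]
  · simp only [f1, dd]
    have := L.R_succ_le q.1.1
    linarith
  · simp only [f1, dd]
    have := L.R_succ_le p.1.1
    linarith
  · simp only [f1, dd]
    by_cases hpq : p.1.1 = q.1.1
    · rw [if_pos (by rw [hpq]), if_pos hpq]
      by_cases h : p.1.2 = q.1.2
      · rw [h, L.d_self, L.d_self]; simp
      · have h1 := L.one_le p.1.1 _ _ h
        have h2 : L.s (p.1.1 + 1) * L.d (p.1.1 + 1) p.1.2 q.1.2 ≤ L.R (p.1.1 + 1) :=
          L.dd_same_le _ _ _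
        rw [R_succ] at h2
        have h3 := L.s_pos p.1.1
        nlinarith
    · rw [if_neg (by omega), if_neg hpq]
      exact L.max_R_le _ _

theorem lip_f2 : LipschitzWith (1 / 2) L.f2 := by
  apply LipschitzWith.of_dist_le_mul
  intro x y
  rw [dist_def, dist_def]
  have hc : ((1 / 2 : NNReal) : ℝ) = 1 / 2 := by simp
  rw [hc]
  rcases x with _ | p <;> rcases y with _ | q
  · simp [f2, dd]
  · simp only [f2, dd]
    have := L.R_succ_le q.1.1
    linarith
  · simp only [f2, dd]
    have := L.R_succ_le p.1.1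
    linarith
  · by_cases hpq : p.1.1 = q.1.1
    · have h0 : L.dd (L.f2 (some p)) (L.f2 (some q)) = 0 := by
        simp only [f2, dd]
        rw [if_pos (by rw [hpq]), hpq, L.d_self, mul_zero]
      rw [h0]
      have := L.dd_nonneg (some p) (some q)
      positivity
    · simp only [f2, dd]
      rw [if_neg (by omega), if_neg hpq]
      exact L.max_R_le _ _

theorem lip_f3 : LipschitzWith 0 L.f3 := LipschitzWith.const _

theorem cover (x : L.K) : (∃ y, L.f1 y = x) ∨ (∃ y, L.f2 y = x) ∨ (∃ y, L.f3 y = x) := by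
  rcases x with _ | ⟨⟨n, i⟩, hi⟩
  · exact Or.inl ⟨none, rfl⟩
  · rcases n with _ | n
    · right; right
      refine ⟨none, ?_⟩
      have : i = 0 := by simpa using hi
      subst this
      rfl
    · by_cases h : i ≤ n
      · left
        exact ⟨some ⟨(n, i), h⟩, rfl⟩
      · right; left
        have : i = n + 1 := by
          have : i ≤ n + 1 := hi
          omega
        subst this
        exact ⟨some ⟨(n, 0), Nat.zero_le _⟩, rfl⟩

end LevelData

end Pool.Agent.H.MP_601622_gt
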