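import Pool.Agent.H.MP_601622_gt.Poincare

/-!
# Finite metric spaces all of whose snowflakes embed badly into Hilbert space
-/

set_option autoImplicit false

namespace Pool.Agent.H.MP_601622_gt

open Finset

open scoped RealInnerProductSpace Pointwise

section Energy

variable {p k : ℕ} [Fact p.Prime] {H : Type*} [NormedAddCommGroup H] [InnerProductSpace ℝ H]

omit [InnerProductSpace ℝ H] in
theorem norm_sq_eq (f : Fn p k H) : ‖f‖ ^ 2 = ∑ z, ‖f z‖ ^ 2 := by
  rw [PiLp.norm_sq_eq_of_L2]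

theorem inner_avg (x : ZMod p) (f : Fn p k H) : ⟪avg x f, f⟫ = ‖avg x f‖ ^ 2 := by
  rw [← real_inner_self_eq_norm_sq, ← avg_symm, avg_idem]

theorem sum_translate_sq (w : Fin k → ZMod p) (f : Fn p k H) :
    ∑ z, ‖f (z + w)‖ ^ 2 = ‖f‖ ^ 2 := by
  rw [norm_sq_eq]
  exact Fintype.sum_equiv (Equiv.addRight w) _ _ (fun z => rfl)

theorem line_energy (x : ZMod p) (f : Fn p k H) :
    ∑ y : ZMod p, ∑ z, ‖f (z + y • mom p k x) - f z‖ ^ 2 =
      2 * p * (‖f‖ ^ 2 - ‖avg x f‖ ^ 2) := by
  have h1 : ∀ y : ZMod p, ∑ z, ‖f (z + y • mom p k x) - f z‖ ^ 2 =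
      2 * ‖f‖ ^ 2 - 2 * ∑ z, ⟪f (z + y • mom p k x), f z⟫ := by
    intro y
    have h2 : ∀ z, ‖f (z + y • mom p k x) - f z‖ ^ 2 =
        ‖f (z + y • mom p k x)‖ ^ 2 - 2 * ⟪f (z + y • mom p k x), f z⟫ + ‖f z‖ ^ 2 :=
      fun z => norm_sub_sq_real _ _
    simp only [h2]
    rw [sum_add_distrib, sum_sub_distrib, sum_translate_sq, ← norm_sq_eq, ← mul_sum]
    ring
  simp only [h1]
  rw [sum_sub_distrib, ← mul_sum univ (fun y : ZMod p =>
    ∑ z, ⟪f (z + y • mom p k x), f z⟫) 2, sum_comm]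
  have h3 : ∑ z, ∑ y : ZMod p, ⟪f (z + y • mom p k x), f z⟫ = p * ‖avg x f‖ ^ 2 := by
    rw [← inner_avg, PiLp.inner_apply, mul_sum]
    refine sum_congr rfl fun z _ => ?_
    rw [avg_apply, inner_smul_left, sum_inner]
    have := p_ne_zero (p := p)
    simp only [conj_trivial]
    rw [← mul_assoc, mul_inv_cancel₀ this, one_mul]
  rw [h3, sum_const, card_univ, ZMod.card, nsmul_eq_mul]
  ring

theorem pair_energy (f : Fn p k H) (hf : ∑ z, f z = 0) :
    ∑ z, ∑ z', ‖f z' - f z‖ ^ 2 = 2 * (p : ℝ) ^ k * ‖f‖ ^ 2 := by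
  have h2 : ∀ z z', ‖f z' - f z‖ ^ 2 = ‖f z'‖ ^ 2 - 2 * ⟪f z', f z⟫ + ‖f z‖ ^ 2 :=
    fun z z' => norm_sub_sq_real _ _
  simp only [h2]
  have h3 : ∀ z, ∑ z', (‖f z'‖ ^ 2 - 2 * ⟪f z', f z⟫ + ‖f z‖ ^ 2) =
      ‖f‖ ^ 2 + (p : ℝ) ^ k * ‖f z‖ ^ 2 := by
    intro z
    rw [sum_add_distrib, sum_sub_distrib, ← norm_sq_eq, ← mul_sum, ← sum_inner, hf,
      inner_zero_left, sum_const, card_univ]
    simp
  simp only [h3]
  rw [sum_add_distrib, ← mul_sum, ← norm_sq_eq, sum_const, card_univ]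
  simp
  ring

/-- The Poincaré inequality. -/
theorem poincare {k' : ℕ} (hk : k = k' + 1) (f : Fn p k H) (hf : ∑ z, f z = 0) :
    ∑ x : ZMod p, ‖avg x f‖ ^ 2 ≤ k' * ‖f‖ ^ 2 := by
  have h := sum_sq_le (avg (p := p) (k := k) (H := H)) avg_symm avg_idem avg_comm
    (univ : Finset (ZMod p)).toList k' f (by
      intro A hA hlen
      exact comp_eq_zero (hA.nodup (nodup_toList _)) (by rw [hlen, hk]) hf)
  rwa [Finset.sum_map_toList] at h

end Energy

section Len

variable (p k : ℕ) [Fact p.Prime]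

/-- The generating set: all points of the lines through `0` in moment curve directions. -/
noncomputable def gen : Finset (Fin k → ZMod p) :=
  (univ : Finset (ZMod p × ZMod p)).image (fun q => q.2 • mom p k q.1)

theorem mem_gen (x y : ZMod p) : y • mom p k x ∈ gen p k :=
  mem_image.2 ⟨(x, y), mem_univ _, rfl⟩

theorem zero_mem_gen : (0 : Fin k → ZMod p) ∈ gen p k := by
  have := mem_gen p k 0 0
  rwa [zero_smul] at this

theorem neg_gen : -gen p k = gen p k := by
  have h : ∀ z, z ∈ gen p k → -z ∈ gen p k := by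
    intro z hz
    obtain ⟨q, _, rfl⟩ := mem_image.1 hz
    rw [← neg_smul]
    exact mem_gen p k _ _
  ext z
  rw [Finset.mem_neg']
  constructor
  · intro hz; simpa using h _ hz
  · intro hz; exact h _ hz

theorem card_gen : (gen p k).card ≤ p ^ 2 := by
  refine card_image_le.trans ?_
  rw [card_univ, Fintype.card_prod, ZMod.card, sq]

variable {p k}

/-- The word length, truncated at `k`. -/
noncomputable def len (z : Fin k → ZMod p) : ℕ := sInf {n : ℕ | n = k ∨ z ∈ n • gen p k}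

theorem len_mem (z : Fin k → ZMod p) : len z = k ∨ z ∈ len z • gen p k :=
  Nat.sInf_mem (s := {n : ℕ | n = k ∨ z ∈ n • gen p k}) ⟨k, Or.inl rfl⟩

theorem len_le {z : Fin k → ZMod p} {n : ℕ} (h : n = k ∨ z ∈ n • gen p k) : len z ≤ n :=
  Nat.sInf_le h

theorem len_le_k (z : Fin k → ZMod p) : len z ≤ k := len_le (Or.inl rfl)

theorem len_zero : len (0 : Fin k → ZMod p) = 0 :=
  Nat.le_zero.1 (len_le (Or.inr (by simp)))

theorem eq_zero_of_len (hk : k ≠ 0) {z : Fin k → ZMod p} (h : len z = 0) : z = 0 := by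
  rcases len_mem z with h1 | h1
  · exact absurd (h1.symm.trans h) hk
  · rw [h, zero_nsmul] at h1
    simpa using h1

theorem neg_mem_nsmul {z : Fin k → ZMod p} {n : ℕ} (h : z ∈ n • gen p k) :
    -z ∈ n • gen p k := by
  induction n generalizing z with
  | zero => simpa using h
  | succ n ih =>
    rw [succ_nsmul] at h ⊢
    obtain ⟨a, ha, b, hb, rfl⟩ := mem_add.1 h
    refine mem_add.2 ⟨-a, ih ha, -b, ?_, by abel⟩
    rw [← neg_gen, Finset.mem_neg']
    simpa using hb

theorem len_neg (z : Fin k → ZMod p) : len (-z) = len z := by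
  have h : ∀ z : Fin k → ZMod p, len (-z) ≤ len z := by
    intro z
    apply len_le
    rcases len_mem z with h | h
    · exact Or.inl h
    · exact Or.inr (neg_mem_nsmul h)
  refine le_antisymm (h z) ?_
  have := h (-z)
  rwa [neg_neg] at this

theorem len_add (z w : Fin k → ZMod p) : len (z + w) ≤ len z + len w := by
  rcases len_mem z with h | h
  · have := len_le_k (z + w); omega
  · rcases len_mem w with h' | h'
    · have := len_le_k (z + w); omega
    · apply len_le
      right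
      rw [add_nsmul]
      exact add_mem_add h h'

theorem len_line (x y : ZMod p) : len (y • mom p k x) ≤ 1 := by
  apply len_le
  right
  rw [one_nsmul]
  exact mem_gen p k x y

theorem nsmul_gen_mono {m n : ℕ} (h : m ≤ n) : m • gen p k ⊆ n • gen p k := by
  obtain ⟨d, rfl⟩ := Nat.exists_eq_add_of_le h
  induction d with
  | zero => simp
  | succ d ih =>
    refine (ih (by omega)).trans ?_
    intro z hz
    rw [← add_assoc, succ_nsmul]
    exact mem_add.2 ⟨z, hz, 0, zero_mem_gen p k, add_zero z⟩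

theorem card_ball {r : ℕ} (hr : r < k) :
    ((univ : Finset (Fin k → ZMod p)).filter (fun z => len z ≤ r)).card ≤ p ^ (2 * r) := by
  have hsub : (univ : Finset (Fin k → ZMod p)).filter (fun z => len z ≤ r) ⊆ r • gen p k := by
    intro z hz
    have hz' := (mem_filter.1 hz).2
    rcases len_mem z with h | h
    · omega
    · exact nsmul_gen_mono hz' h
  refine (card_le_card hsub).trans ?_
  refine Finset.card_nsmul_le.trans ?_
  rw [pow_mul]
  exact Nat.pow_le_pow_left (card_gen p k) r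

end Len

/-- **Key proposition.** For every `r` there is a finite set with an integer valued metric for
which every `α`-snowflake has `ℓ₂`-distortion at least of order `(r + 1) ^ α`. -/
theorem key.{u} (r : ℕ) : ∃ (X : Type) (_ : Fintype X) (_ : Nonempty X) (ρ : X → X → ℕ) (B : ℕ),
    (∀ x, ρ x x = 0) ∧ (∀ x y, ρ x y = ρ y x) ∧ (∀ x y z, ρ x z ≤ ρ x y + ρ y z) ∧
    (∀ x y, ρ x y = 0 → x = y) ∧ (∀ x y, ρ x y ≤ B) ∧
    ∀ (H : Type u) [NormedAddCommGroup H] [InnerProductSpace ℝ H] (f : X → H) (c C α : ℝ),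
      0 < c → 0 < C → 0 < α →
      (∀ x y, c * (ρ x y : ℝ) ^ α ≤ ‖f x - f y‖) → (∀ x y, ‖f x - f y‖ ≤ C * (ρ x y : ℝ) ^ α) →
      c ^ 2 * ((r : ℝ) + 1) ^ (2 * α) ≤ 4 * C ^ 2 := by
  obtain ⟨p, hp_ge, hp⟩ := Nat.exists_infinite_primes (2 * (2 * r + 1))
  have : Fact p.Prime := ⟨hp⟩
  have hp1 : 1 ≤ p := hp.one_lt.le
  refine ⟨Fin (2 * r + 1) → ZMod p, inferInstance, inferInstance, fun z z' => len (z' - z),
    2 * r + 1, ?_, ?_, ?_, ?_, ?_, ?_⟩
  · intro z
    simp only [sub_self]; exact len_zero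
  · intro z z'
    simp only
    rw [← len_neg, neg_sub]
  · intro x y z
    simp only
    have := len_add (y - x) (z - y)
    rw [sub_add_sub_cancel'] at this
    exact this
  · intro x y h
    exact (sub_eq_zero.1 (eq_zero_of_len (by omega) h)).symm
  · intro x y
    exact len_le_k _
  · intro H _ _ f c C α hc hC hα hlow hup
    set n : ℝ := (p : ℝ) ^ (2 * r + 1) with hn
    have hp0 : (0 : ℝ) < p := by exact_mod_cast hp.pos
    have hn0 : 0 < n := by positivity
    -- subtract the mean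
    let μ : H := n⁻¹ • ∑ z, f z
    let g : Fn p (2 * r + 1) H := WithLp.toLp 2 (fun z => f z - μ)
    have hgz : ∀ z, g z = f z - μ := fun z => rfl
    have hgsum : ∑ z, g z = 0 := by
      simp only [hgz]
      rw [sum_sub_distrib, sum_const, card_univ, ← Nat.cast_smul_eq_nsmul ℝ]
      have hcard : (Fintype.card (Fin (2 * r + 1) → ZMod p) : ℝ) = n := by
        simp [hn]
      rw [hcard]
      simp only [μ]
      rw [smul_smul, mul_inv_cancel₀ hn0.ne', one_smul, sub_self]
    have hdiff : ∀ z z', g z' - g z = f z' - f z := by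
      intro z z'; simp only [hgz]; abel
    -- energy along lines
    have hline : ∀ x y : ZMod p, ∀ z, ‖g (z + y • mom p (2 * r + 1) x) - g z‖ ^ 2 ≤ C ^ 2 := by
      intro x y z
      rw [hdiff]
      have h1 := hup (z + y • mom p (2 * r + 1) x) z
      have h2 : len (z - (z + y • mom p (2 * r + 1) x)) ≤ 1 := by
        rw [sub_add_cancel_left, len_neg]
        exact len_line x y
      have h3 : ((len (z - (z + y • mom p (2 * r + 1) x)) : ℕ) : ℝ) ^ α ≤ 1 := by
        apply Real.rpow_le_one (by positivity) _ hα.le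
        exact_mod_cast h2
      have h4 : ‖f (z + y • mom p (2 * r + 1) x) - f z‖ ≤ C := by
        refine h1.trans ?_
        calc C * ((len (z - (z + y • mom p (2 * r + 1) x)) : ℕ) : ℝ) ^ α ≤ C * 1 :=
              mul_le_mul_of_nonneg_left h3 hC.le
          _ = C := mul_one C
      exact pow_le_pow_left₀ (norm_nonneg _) h4 2
    have hE1 : ∑ x : ZMod p, ∑ y : ZMod p, ∑ z, ‖g (z + y • mom p (2 * r + 1) x) - g z‖ ^ 2 ≤
        p * (p * (n * C ^ 2)) := by
      have h1 : ∀ x y : ZMod p, ∑ z, ‖g (z + y • mom p (2 * r + 1) x) - g z‖ ^ 2 ≤ n * C ^ 2 := by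
        intro x y
        refine (sum_le_card_nsmul _ _ _ (fun z _ => hline x y z)).trans ?_
        rw [nsmul_eq_mul, card_univ]
        simp [hn]
      have h2 : ∀ x : ZMod p, ∑ y : ZMod p, ∑ z, ‖g (z + y • mom p (2 * r + 1) x) - g z‖ ^ 2 ≤
          p * (n * C ^ 2) := by
        intro x
        refine (sum_le_card_nsmul _ _ _ (fun y _ => h1 x y)).trans ?_
        rw [nsmul_eq_mul, card_univ, ZMod.card]
      refine (sum_le_card_nsmul _ _ _ (fun x _ => h2 x)).trans ?_
      rw [nsmul_eq_mul, card_univ, ZMod.card]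
    simp only [line_energy] at hE1
    rw [← mul_sum, sum_sub_distrib, sum_const, card_univ, ZMod.card, nsmul_eq_mul] at hE1
    have hP := poincare (k' := 2 * r) rfl g hgsum
    have hpge : (2 : ℝ) * (2 * r + 1) ≤ p := by exact_mod_cast hp_ge
    have hg2 : ‖g‖ ^ 2 ≤ n * C ^ 2 := by
      have h0 : 0 ≤ ‖g‖ ^ 2 := by positivity
      push_cast at hP
      have h1 : (p : ℝ) * ‖g‖ ^ 2 ≤ 2 * (p * ‖g‖ ^ 2 - ∑ x : ZMod p, ‖avg x g‖ ^ 2) := by
        nlinarith
      have h2 : (p : ℝ) * (p * ‖g‖ ^ 2) ≤ p * (p * (n * C ^ 2)) := by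
        calc (p : ℝ) * (p * ‖g‖ ^ 2) ≤ p * (2 * (p * ‖g‖ ^ 2 - ∑ x : ZMod p, ‖avg x g‖ ^ 2)) :=
              mul_le_mul_of_nonneg_left h1 hp0.le
          _ = 2 * p * (p * ‖g‖ ^ 2 - ∑ x : ZMod p, ‖avg x g‖ ^ 2) := by ring
          _ ≤ _ := hE1
      exact le_of_mul_le_mul_left (le_of_mul_le_mul_left h2 hp0) hp0
    -- pairs
    have hpair := pair_energy g hgsum
    rw [← hn] at hpair
    have hfar : ∀ z, n / 2 * (c ^ 2 * ((r : ℝ) + 1) ^ (2 * α)) ≤ ∑ z', ‖g z' - g z‖ ^ 2 := by
      intro z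
      set T := (univ : Finset (Fin (2 * r + 1) → ZMod p)).filter (fun z' => ¬ len (z - z') ≤ r)
        with hT
      have hcard : n / 2 ≤ (T.card : ℝ) := by
        have h1 : ((univ : Finset (Fin (2 * r + 1) → ZMod p)).filter
            (fun z' => len (z - z') ≤ r)).card ≤ p ^ (2 * r) := by
          have h2 := card_ball (p := p) (k := 2 * r + 1) (r := r) (by omega)
          refine le_trans (le_of_eq ?_) h2
          refine Finset.card_bij (fun z' _ => z - z') ?_ ?_ ?_
          · intro a ha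
            exact mem_filter.2 ⟨mem_univ _, (mem_filter.1 ha).2⟩
          · intro a _ b _ hab
            exact sub_right_injective hab
          · intro b hb
            refine ⟨z - b, mem_filter.2 ⟨mem_univ _, ?_⟩, ?_⟩
            · rw [sub_sub_cancel]; exact (mem_filter.1 hb).2
            · rw [sub_sub_cancel]
        have h3 := Finset.card_filter_add_card_filter_not (s := (univ : Finset (Fin (2 * r + 1) → ZMod p)))
          (fun z' => len (z - z') ≤ r)
        rw [card_univ] at h3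
        have h4 : Fintype.card (Fin (2 * r + 1) → ZMod p) = p ^ (2 * r + 1) := by simp
        rw [h4, ← hT] at h3
        have h5 : (p : ℝ) ^ (2 * r + 1) = p * p ^ (2 * r) := by ring
        have h6 : (2 : ℝ) ≤ p := by
          have : (0 : ℝ) ≤ r := by positivity
          linarith
        have h7 : ((((univ : Finset (Fin (2 * r + 1) → ZMod p)).filter
            (fun z' => len (z - z') ≤ r)).card : ℕ) : ℝ) ≤ (p : ℝ) ^ (2 * r) := by exact_mod_cast h1
        have h8 : ((((univ : Finset (Fin (2 * r + 1) → ZMod p)).filter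
            (fun z' => len (z - z') ≤ r)).card : ℕ) : ℝ) + (T.card : ℝ) = (p : ℝ) ^ (2 * r + 1) := by
          exact_mod_cast h3
        have h9 : (0 : ℝ) < (p : ℝ) ^ (2 * r) := by positivity
        rw [hn]
        nlinarith
      have hterm : ∀ z' ∈ T, c ^ 2 * ((r : ℝ) + 1) ^ (2 * α) ≤ ‖g z' - g z‖ ^ 2 := by
        intro z' hz'
        have hl : r + 1 ≤ len (z - z') := by
          have := (mem_filter.1 hz').2
          omega
        have hl' : (r : ℝ) + 1 ≤ ((len (z - z') : ℕ) : ℝ) := by exact_mod_cast hl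
        rw [hdiff]
        have h1 := hlow z' z
        have h2 : c * ((r : ℝ) + 1) ^ α ≤ ‖f z' - f z‖ := by
          refine le_trans ?_ h1
          apply mul_le_mul_of_nonneg_left _ hc.le
          exact Real.rpow_le_rpow (by positivity) hl' hα.le
        have h3 : ((r : ℝ) + 1) ^ (2 * α) = (((r : ℝ) + 1) ^ α) ^ 2 := by
          rw [mul_comm, Real.rpow_mul (by positivity)]
          norm_cast
        rw [h3, ← mul_pow]
        exact pow_le_pow_left₀ (by positivity) h2 2
      calc n / 2 * (c ^ 2 * ((r : ℝ) + 1) ^ (2 * α))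
          ≤ (T.card : ℝ) * (c ^ 2 * ((r : ℝ) + 1) ^ (2 * α)) :=
            mul_le_mul_of_nonneg_right hcard (by positivity)
        _ = T.card • (c ^ 2 * ((r : ℝ) + 1) ^ (2 * α)) := by rw [nsmul_eq_mul]
        _ ≤ ∑ z' ∈ T, ‖g z' - g z‖ ^ 2 := card_nsmul_le_sum _ _ _ hterm
        _ ≤ ∑ z', ‖g z' - g z‖ ^ 2 :=
            sum_le_sum_of_subset_of_nonneg (filter_subset _ _) (fun _ _ _ => by positivity)
    have htot : n * (n / 2 * (c ^ 2 * ((r : ℝ) + 1) ^ (2 * α))) ≤ 2 * n * ‖g‖ ^ 2 := by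
      rw [← hpair]
      calc n * (n / 2 * (c ^ 2 * ((r : ℝ) + 1) ^ (2 * α)))
          = Fintype.card (Fin (2 * r + 1) → ZMod p) •
            (n / 2 * (c ^ 2 * ((r : ℝ) + 1) ^ (2 * α))) := by
            rw [nsmul_eq_mul]; simp [hn]
        _ ≤ _ := by
            rw [← card_univ]
            exact card_nsmul_le_sum _ _ _ (fun z _ => hfar z)
    have h1 : n * (n / 2 * (c ^ 2 * ((r : ℝ) + 1) ^ (2 * α))) ≤ n * (n / 2 * (4 * C ^ 2)) := by
      refine htot.trans ?_
      nlinarith
    exact le_of_mul_le_mul_left (le_of_mul_le_mul_left h1 hn0) (by positivity)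

end Pool.Agent.H.MP_601622_gt
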