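import Pool.Agent.H.MP_601622_gt.Defs
import Pool.Agent.H.MP_601622_gt.Fractal
import Pool.Agent.H.MP_601622_gt.Key

/-!
# A metric fractal that is not equi-Hölder embeddable into Hilbert space
-/

set_option autoImplicit false

namespace Pool.Agent.H.MP_601622_gt

open Set Filter Topology

open scoped lp ENNReal

/-- There is a metric fractal which has no equi-Hölder map into any real inner product space. -/
theorem exists_fractal : ∃ (K : Type) (_ : MetricSpace K) (F : Set (K → K)),
    IsMetricFractal K F ∧
    ∀ (H : Type) [NormedAddCommGroup H] [InnerProductSpace ℝ H] (h : K → H),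
      ¬ IsEquiHolder h := by
  classical
  choose X hX1 hX2 ρ B hself hsymm htri hpos hB hkey using key.{0}
  -- enumerations
  have hsurj : ∀ r, ∃ π : ℕ → X r, Function.Surjective π := fun r => by
    have := hX1 r
    have := hX2 r
    have : Countable (X r) := Finite.to_countable
    exact exists_surjective_nat (X r)
  choose π hπ using hsurj
  choose ι hι using hπ
  let L : LevelData :=
    { d := fun n i j => if i = j then 0 else
        max 1 (ρ (Nat.unpair n).1 (π (Nat.unpair n).1 i) (π (Nat.unpair n).1 j) : ℝ)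
      B := fun n => max 1 (B (Nat.unpair n).1 : ℝ)
      d_self := fun n i => by simp
      d_symm := fun n i j => by
        by_cases h : i = j
        · subst h; rfl
        · rw [if_neg h, if_neg (Ne.symm h), hsymm]
      d_tri := fun n i j k => by
        have h0 : (0 : ℝ) ≤ max 1 (ρ (Nat.unpair n).1 (π (Nat.unpair n).1 i)
          (π (Nat.unpair n).1 j) : ℝ) := zero_le_one.trans (le_max_left _ _)
        have h0' : (0 : ℝ) ≤ max 1 (ρ (Nat.unpair n).1 (π (Nat.unpair n).1 j)
          (π (Nat.unpair n).1 k) : ℝ) := zero_le_one.trans (le_max_left _ _)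
        by_cases hik : i = k
        · rw [if_pos hik]
          split_ifs <;> linarith
        · rw [if_neg hik]
          by_cases hij : i = j
          · subst hij
            rw [if_pos rfl, if_neg hik, zero_add]
          · rw [if_neg hij]
            by_cases hjk : j = k
            · subst hjk
              rw [if_pos rfl, add_zero]
            · rw [if_neg hjk]
              have h1 : (ρ (Nat.unpair n).1 (π (Nat.unpair n).1 i) (π (Nat.unpair n).1 k) : ℝ) ≤
                  (ρ (Nat.unpair n).1 (π (Nat.unpair n).1 i) (π (Nat.unpair n).1 j) : ℝ) +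
                  (ρ (Nat.unpair n).1 (π (Nat.unpair n).1 j) (π (Nat.unpair n).1 k) : ℝ) := by
                exact_mod_cast htri _ _ _ _
              have h2 := le_max_left (1 : ℝ) (ρ (Nat.unpair n).1 (π (Nat.unpair n).1 i)
                (π (Nat.unpair n).1 j) : ℝ)
              have h3 := le_max_right (1 : ℝ) (ρ (Nat.unpair n).1 (π (Nat.unpair n).1 i)
                (π (Nat.unpair n).1 j) : ℝ)
              have h4 := le_max_right (1 : ℝ) (ρ (Nat.unpair n).1 (π (Nat.unpair n).1 j)
                (π (Nat.unpair n).1 k) : ℝ)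
              exact max_le (by linarith) (by linarith)
      one_le := fun n i j h => by
        rw [if_neg h]; exact le_max_left _ _
      le_B := fun n i j => by
        split_ifs
        · exact zero_le_one.trans (le_max_left _ _)
        · exact max_le_max le_rfl (by exact_mod_cast hB _ _ _) }
  refine ⟨L.K, inferInstance, {L.f1, L.f2, L.f3}, ?_, ?_⟩
  · refine ⟨inferInstance, ⟨L.inf⟩, by simp, ?_, ?_⟩
    · intro f hf
      rcases hf with rfl | rfl | rfl
      · exact ⟨1 / 2, NNReal.half_lt_self one_ne_zero, L.lip_f1⟩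
      · exact ⟨1 / 2, NNReal.half_lt_self one_ne_zero, L.lip_f2⟩
      · exact ⟨0, zero_lt_one, L.lip_f3⟩
    · rw [eq_univ_iff_forall]
      intro x
      simp only [mem_iUnion]
      rcases L.cover x with ⟨y, hy⟩ | ⟨y, hy⟩ | ⟨y, hy⟩
      · exact ⟨L.f1, Or.inl rfl, y, hy⟩
      · exact ⟨L.f2, Or.inr (Or.inl rfl), y, hy⟩
      · exact ⟨L.f3, Or.inr (Or.inr rfl), y, hy⟩
  · rintro H _ _ h ⟨c, C, α, hc, hC, hα, hh⟩
    -- the bound for every `r`
    have hbound : ∀ r : ℕ, c ^ 2 * ((r : ℝ) + 1) ^ (2 * α) ≤ 4 * C ^ 2 := by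
      intro r
      have hfin : Finite (X r) := @Finite.of_fintype _ (hX1 r)
      obtain ⟨N, hN⟩ : ∃ N, ∀ x : X r, ι r x ≤ N := by
        have h1 : (Set.range (ι r)).Finite := Set.finite_range _
        obtain ⟨N, hN⟩ := h1.bddAbove
        exact ⟨N, fun x => hN ⟨x, rfl⟩⟩
      set n := Nat.pair r N with hn
      have hnr : (Nat.unpair n).1 = r := by rw [hn, Nat.unpair_pair]
      have hle : ∀ x : X r, ι r x ≤ n := fun x => (hN x).trans (Nat.right_le_pair r N)
      have hιinj : ∀ x y : X r, ι r x = ι r y → x = y := by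
        intro x y hxy
        rw [← hι r x, ← hι r y, hxy]
      have hd : ∀ x y : X r, L.d n (ι r x) (ι r y) = (ρ r x y : ℝ) := by
        intro x y
        by_cases hxy : x = y
        · subst hxy
          rw [L.d_self, hself]; simp
        · have h1 : ι r x ≠ ι r y := fun h => hxy (hιinj x y h)
          have h2 : L.d n (ι r x) (ι r y) = max 1 (ρ (Nat.unpair n).1
              (π (Nat.unpair n).1 (ι r x)) (π (Nat.unpair n).1 (ι r y)) : ℝ) := if_neg h1
          rw [h2]
          have h3 : ∀ m, m = r → (ρ m (π m (ι r x)) (π m (ι r y)) : ℝ) = (ρ r x y : ℝ) := by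
            intro m hm
            subst hm
            rw [hι, hι]
          rw [h3 _ hnr]
          apply max_eq_right
          have h4 : ρ r x y ≠ 0 := fun h => hxy (hpos r x y h)
          exact_mod_cast Nat.one_le_iff_ne_zero.2 h4
      have hs := L.s_pos n
      have hsα : 0 < L.s n ^ α := Real.rpow_pos_of_pos hs α
      have hdist : ∀ x y : X r, dist (L.pt n (ι r x) (hle x)) (L.pt n (ι r y) (hle y)) ^ α =
          L.s n ^ α * (ρ r x y : ℝ) ^ α := by
        intro x y
        rw [L.dist_pt, hd, Real.mul_rpow hs.le (by positivity)]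
      have hk := hkey r H (fun x => h (L.pt n (ι r x) (hle x))) (c * L.s n ^ α) (C * L.s n ^ α) α
        (by positivity) (by positivity) hα
        (by
          intro x y
          have := (hh (L.pt n (ι r x) (hle x)) (L.pt n (ι r y) (hle y))).1
          rw [hdist, dist_eq_norm] at this
          rwa [mul_assoc])
        (by
          intro x y
          have := (hh (L.pt n (ι r x) (hle x)) (L.pt n (ι r y) (hle y))).2
          rw [hdist, dist_eq_norm] at this
          rwa [mul_assoc])
      have hs2 : 0 < (L.s n ^ α) ^ 2 := by positivity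
      have h5 : (L.s n ^ α) ^ 2 * (c ^ 2 * ((r : ℝ) + 1) ^ (2 * α)) ≤
          (L.s n ^ α) ^ 2 * (4 * C ^ 2) := by
        calc (L.s n ^ α) ^ 2 * (c ^ 2 * ((r : ℝ) + 1) ^ (2 * α))
            = (c * L.s n ^ α) ^ 2 * ((r : ℝ) + 1) ^ (2 * α) := by ring
          _ ≤ 4 * (C * L.s n ^ α) ^ 2 := hk
          _ = _ := by ring
      exact le_of_mul_le_mul_left h5 hs2
    -- contradiction
    have ht : Tendsto (fun r : ℕ => ((r : ℝ) + 1) ^ (2 * α)) atTop atTop :=
      (tendsto_rpow_atTop (by positivity)).comp
        (tendsto_atTop_add_const_right _ _ tendsto_natCast_atTop_atTop)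
    obtain ⟨r, hr⟩ := (ht.eventually_gt_atTop (4 * C ^ 2 / c ^ 2)).exists
    have h1 := hbound r
    rw [div_lt_iff₀ (by positivity)] at hr
    linarith

/-- Negative answer: there is a metric fractal that is not equi-Hölder equivalent to any fractal in
`ℓ₂`; in fact its underlying space has no equi-Hölder map into `ℓ₂`. -/
theorem main : ∃ (K : Type) (_ : MetricSpace K) (F : Set (K → K)),
    IsMetricFractal K F ∧ (∀ h : K → ℓ²(ℕ, ℝ), ¬ IsEquiHolder h) ∧
    ∀ (K' : Set ℓ²(ℕ, ℝ)) (F' : Set (K' → K')), IsFractalIn K' F' → ¬ EquiHolderEquivalent F F' := by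
  obtain ⟨K, mK, F, hF, hno⟩ := exists_fractal
  have hno' : ∀ h : K → ℓ²(ℕ, ℝ), ¬ IsEquiHolder h := fun h => hno _ h
  refine ⟨K, mK, F, hF, hno', ?_⟩
  rintro K' F' _ ⟨h, ⟨c, C, α, hc, hC, hα, hh⟩, _⟩
  exact hno' (fun x => (h x : ℓ²(ℕ, ℝ))) ⟨c, C, α, hc, hC, hα, hh⟩

end Pool.Agent.H.MP_601622_gt
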