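import Mathlib

/-!
# A Poincaré inequality for the Reed–Solomon lines in `(ZMod p)^k`
-/

set_option autoImplicit false

namespace Pool.Agent.H.MP_601622_gt

open Finset

open scoped RealInnerProductSpace

section Abstract

variable {V : Type*} [NormedAddCommGroup V] [InnerProductSpace ℝ V] {ι : Type*}

/-- Composition of a list of operators. -/
def comp (P : ι → V →ₗ[ℝ] V) (A : List ι) (f : V) : V := A.foldr (fun i v => P i v) f

theorem comp_cons (P : ι → V →ₗ[ℝ] V) (i : ι) (A : List ι) (f : V) :
    comp P (i :: A) f = P i (comp P A f) := rfl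

theorem comp_sub (P : ι → V →ₗ[ℝ] V) (A : List ι) (f g : V) :
    comp P A (f - g) = comp P A f - comp P A g := by
  induction A with
  | nil => rfl
  | cons i A ih => rw [comp_cons, comp_cons, comp_cons, ih, map_sub]

theorem comp_comm (P : ι → V →ₗ[ℝ] V) (hcomm : ∀ i j u, P i (P j u) = P j (P i u))
    (A : List ι) (j : ι) (f : V) : comp P A (P j f) = P j (comp P A f) := by
  induction A with
  | nil => rfl
  | cons i A ih => rw [comp_cons, comp_cons, ih, hcomm]

theorem sum_sq_le (P : ι → V →ₗ[ℝ] V) (hsymm : ∀ i u v, ⟪P i u, v⟫ = ⟪u, P i v⟫)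
    (hidem : ∀ i u, P i (P i u) = P i u) (hcomm : ∀ i j u, P i (P j u) = P j (P i u))
    (l : List ι) : ∀ (k : ℕ) (f : V),
      (∀ A : List ι, A.Sublist l → A.length = k + 1 → comp P A f = 0) →
      (l.map (fun i => ‖P i f‖ ^ 2)).sum ≤ k * ‖f‖ ^ 2 := by
  -- orthogonality
  have horth : ∀ i u, ⟪u - P i u, P i u⟫ = 0 := by
    intro i u
    rw [inner_sub_left, hsymm i u (P i u), hidem, sub_self]
  have hpyth : ∀ i u, ‖u‖ ^ 2 = ‖u - P i u‖ ^ 2 + ‖P i u‖ ^ 2 := by
    intro i u
    have h := norm_add_sq_real (u - P i u) (P i u)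
    rw [sub_add_cancel, horth i u] at h
    linarith
  induction l with
  | nil =>
    intro k f _
    simp only [List.map_nil, List.sum_nil]
    positivity
  | cons j l ih =>
    intro k f hf
    have hg : ∀ A : List ι, A.Sublist l → A.length = k + 1 → comp P A (f - P j f) = 0 := by
      intro A hA hlen
      rw [comp_sub, comp_comm P hcomm, hf A (hA.cons j) hlen, map_zero, sub_zero]
    have hgle := ih k (f - P j f) hg
    have hsplit : ∀ i, ‖P i f‖ ^ 2 = ‖P i (f - P j f)‖ ^ 2 + ‖P i (P j f)‖ ^ 2 := by
      intro i
      have h := hpyth j (P i f)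
      rw [h, map_sub, hcomm j i f]
    have hsum : (l.map (fun i => ‖P i f‖ ^ 2)).sum =
        (l.map (fun i => ‖P i (f - P j f)‖ ^ 2)).sum + (l.map (fun i => ‖P i (P j f)‖ ^ 2)).sum := by
      rw [← List.sum_map_add]
      congr 1
      exact List.map_congr_left (fun i _ => hsplit i)
    rw [List.map_cons, List.sum_cons, hsum, hpyth j f]
    rcases k with _ | k
    · have h0 : P j f = 0 := by
        have := hf [j] (by simp) rfl
        simpa [comp] using this
      have h1 : (l.map (fun i => ‖P i (P j f)‖ ^ 2)).sum = 0 := by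
        rw [h0]; simp
      rw [h1]
      rw [h0] at hgle ⊢
      simpa using hgle
    · have hh : ∀ A : List ι, A.Sublist l → A.length = k + 1 → comp P A (P j f) = 0 := by
        intro A hA hlen
        have := hf (j :: A) (hA.cons_cons j) (by simp [hlen])
        rw [comp_cons] at this
        rw [comp_comm P hcomm, this]
      have hhle := ih k (P j f) hh
      push_cast at hgle ⊢
      nlinarith [hgle, hhle]

end Abstract

section Lines

variable (p k : ℕ) [Fact p.Prime]

/-- The moment curve direction. -/
def mom (x : ZMod p) : Fin k → ZMod p := fun i => x ^ (i : ℕ)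

variable (H : Type*) [NormedAddCommGroup H] [InnerProductSpace ℝ H]

/-- Functions on the group with values in `H`, with the `ℓ₂` norm. -/
abbrev Fn : Type _ := PiLp 2 (fun _ : Fin k → ZMod p => H)

variable {H} {p k}

/-- Averaging along the lines of direction `mom x`. -/
noncomputable def avg (x : ZMod p) : Fn p k H →ₗ[ℝ] Fn p k H where
  toFun f := WithLp.toLp 2 (fun z => (p : ℝ)⁻¹ • ∑ y : ZMod p, f (z + y • mom p k x))
  map_add' f g := by
    ext z
    simp [sum_add_distrib]
  map_smul' c f := by
    ext z
    simp only [PiLp.smul_apply, RingHom.id_apply]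
    rw [← smul_sum, smul_comm]

theorem avg_apply (x : ZMod p) (f : Fn p k H) (z : Fin k → ZMod p) :
    avg x f z = (p : ℝ)⁻¹ • ∑ y : ZMod p, f (z + y • mom p k x) := rfl

theorem p_ne_zero : (p : ℝ) ≠ 0 := by
  have := (Fact.out : p.Prime).pos
  positivity

/-- `avg x f` is invariant under translations in direction `mom x`. -/
theorem avg_invariant (x : ZMod p) (f : Fn p k H) (z : Fin k → ZMod p) (y : ZMod p) :
    avg x f (z + y • mom p k x) = avg x f z := by
  rw [avg_apply, avg_apply]
  congr 1
  refine Fintype.sum_equiv (Equiv.addLeft y) _ _ ?_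
  intro y'
  simp only [Equiv.coe_addLeft]
  rw [add_smul, add_assoc]

theorem avg_idem (x : ZMod p) (f : Fn p k H) : avg x (avg x f) = avg x f := by
  ext z
  rw [avg_apply]
  simp only [avg_invariant]
  rw [sum_const, card_univ, ZMod.card, ← Nat.cast_smul_eq_nsmul ℝ, smul_smul,
    inv_mul_cancel₀ p_ne_zero, one_smul]

theorem avg_comm (x x' : ZMod p) (f : Fn p k H) : avg x (avg x' f) = avg x' (avg x f) := by
  ext z
  rw [avg_apply, avg_apply]
  congr 1
  simp only [avg_apply]
  rw [← smul_sum, ← smul_sum]
  congr 1
  rw [sum_comm]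
  refine sum_congr rfl fun y _ => sum_congr rfl fun y' _ => ?_
  rw [add_right_comm]

theorem avg_symm (x : ZMod p) (f g : Fn p k H) : ⟪avg x f, g⟫ = ⟪f, avg x g⟫ := by
  rw [PiLp.inner_apply, PiLp.inner_apply]
  simp only [avg_apply, inner_smul_left, inner_smul_right, sum_inner, inner_sum]
  rw [← mul_sum, ← mul_sum]
  congr 1
  rw [sum_comm]
  conv_rhs => rw [sum_comm]
  -- substitute `y ↦ -y` and `z ↦ z - y • m`
  refine Fintype.sum_equiv (Equiv.neg (ZMod p)) _ _ ?_
  intro y
  refine Fintype.sum_equiv (Equiv.addRight (y • mom p k x)) _ _ ?_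
  intro z
  simp

theorem sum_avg (x : ZMod p) (f : Fn p k H) : ∑ z, avg x f z = ∑ z, f z := by
  simp only [avg_apply]
  rw [← smul_sum, sum_comm]
  have : ∀ y : ZMod p, ∑ z, f (z + y • mom p k x) = ∑ z, f z := by
    intro y
    exact Fintype.sum_equiv (Equiv.addRight (y • mom p k x)) _ _ (fun z => by simp)
  simp only [this]
  rw [sum_const, card_univ, ZMod.card, ← Nat.cast_smul_eq_nsmul ℝ, smul_smul,
    inv_mul_cancel₀ p_ne_zero, one_smul]

theorem sum_comp (A : List (ZMod p)) (f : Fn p k H) :
    ∑ z, comp avg A f z = ∑ z, f z := by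
  induction A with
  | nil => rfl
  | cons x A ih => rw [comp_cons, sum_avg, ih]

/-- Averaging in any direction preserves invariance in a given direction. -/
theorem avg_preserves {g : Fn p k H} {w : Fin k → ZMod p} (hg : ∀ z, g (z + w) = g z)
    (x' : ZMod p) (z : Fin k → ZMod p) : avg x' g (z + w) = avg x' g z := by
  rw [avg_apply, avg_apply]
  congr 1
  refine sum_congr rfl fun y' _ => ?_
  rw [add_right_comm, hg]

theorem comp_invariant (A : List (ZMod p)) (f : Fn p k H) (x : ZMod p) (hx : x ∈ A)
    (y : ZMod p) (z : Fin k → ZMod p) :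
    comp avg A f (z + y • mom p k x) = comp avg A f z := by
  induction A generalizing z with
  | nil => simp at hx
  | cons x' A ih =>
    rw [comp_cons]
    by_cases hxx : x = x'
    · subst hxx
      exact avg_invariant _ _ _ _
    · have hx' : x ∈ A := by
        rcases List.mem_cons.1 hx with h | h
        · exact absurd h hxx
        · exact h
      exact avg_preserves (fun z => ih hx' z) x' z

/-- `k` distinct directions on the moment curve span the whole space. -/
theorem span_mom {A : List (ZMod p)} (hA : A.Nodup) (hlen : A.length = k) :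
    Submodule.span (ZMod p) {w | ∃ x ∈ A, w = mom p k x} = ⊤ := by
  subst hlen
  have hinj : Function.Injective (fun i : Fin A.length => A.get i) := by
    exact List.nodup_iff_injective_get.1 hA
  have hdet : (Matrix.vandermonde (fun i : Fin A.length => A.get i)).det ≠ 0 :=
    Matrix.det_vandermonde_ne_zero_iff.2 hinj
  have hunit : IsUnit (Matrix.vandermonde (fun i : Fin A.length => A.get i)) := by
    rw [Matrix.isUnit_iff_isUnit_det]
    exact isUnit_iff_ne_zero.2 hdet
  have hli := Matrix.linearIndependent_rows_iff_isUnit.2 hunit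
  have hspan := hli.span_eq_top_of_card_eq_finrank' (by simp)
  rw [eq_top_iff, ← hspan]
  apply Submodule.span_mono
  rintro _ ⟨i, rfl⟩
  refine ⟨A.get i, List.get_mem _ _, ?_⟩
  ext j
  simp [mom, Matrix.vandermonde, Matrix.row]

/-- Composition of averages in `k` distinct directions kills mean-zero functions. -/
theorem comp_eq_zero {A : List (ZMod p)} (hA : A.Nodup) (hlen : A.length = k)
    {f : Fn p k H} (hf : ∑ z, f z = 0) : comp avg A f = 0 := by
  set h := comp avg A f with hh
  -- invariance under everything
  have hinv : ∀ w : Fin k → ZMod p, ∀ z, h (z + w) = h z := by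
    intro w
    have hw : w ∈ Submodule.span (ZMod p) {w | ∃ x ∈ A, w = mom p k x} := by
      rw [span_mom hA hlen]; trivial
    induction hw using Submodule.span_induction with
    | mem w hw =>
      obtain ⟨x, hx, rfl⟩ := hw
      intro z
      have := comp_invariant A f x hx 1 z
      rw [one_smul] at this
      exact this
    | zero => intro z; rw [add_zero]
    | add u v _ _ hu hv =>
      intro z
      rw [← add_assoc, hv, hu]
    | smul a w _ hw =>
      intro z
      -- `a • w` is a natural multiple of `w`
      have key : ∀ n : ℕ, ∀ z, h (z + (n : ZMod p) • w) = h z := by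
        intro n
        induction n with
        | zero => intro z; simp
        | succ n ih =>
          intro z
          rw [Nat.cast_succ, add_smul, one_smul, ← add_assoc, hw, ih]
      have := key a.val z
      rwa [ZMod.natCast_zmod_val] at this
  have hconst : ∀ z, h z = h 0 := by
    intro z
    have := hinv z 0
    rwa [zero_add] at this
  have hsum : ∑ z, h z = 0 := by rw [hh, sum_comp, hf]
  simp only [hconst] at hsum
  rw [sum_const, card_univ, ← Nat.cast_smul_eq_nsmul ℝ, smul_eq_zero] at hsum
  have h0 : h 0 = 0 := by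
    rcases hsum with hc | h0
    · exfalso
      have : (0 : ℝ) < (Fintype.card (Fin k → ZMod p) : ℝ) := by
        exact_mod_cast Fintype.card_pos
      linarith
    · exact h0
  ext z
  rw [hconst z, h0]
  rfl

end Lines

end Pool.Agent.H.MP_601622_gt
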